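import Pool.Agent.Q18.WordC2

/-!
Equidistribution of the values of non-singular words with constants in symmetric groups.

For every `r` and every sequence of non-singular words `w_n ∈ S_n * F_r` of bounded length the
symmetrized word measures tend to the uniform measure in the Kantorovich-Rubinstein distance for
the normalized Hamming metric.  No condition is imposed on the constants, and the words need not
be reduced.
-/

set_option linter.unusedSectionVars false

namespace Pool.Agent.Results.MP_492aa6_al.Equidistribution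

open Finset Filter Topology

/-! ### definitions used in the statement -/

/-- A written-out word with constants in `G` in the variables `x_0, …, x_{r-1}`, namely
`c₀ · x_{i₁}^{±1} · c₁ ⋯ x_{i_l}^{±1} · c_l`.  The list `steps` consists of the pairs
(letter, constant following it); a letter is a variable with a sign, `true` meaning exponent `1`
and `false` meaning exponent `-1`. -/
structure CWord (G : Type) (r : ℕ) where
  c0 : G
  steps : List ((Fin r × Bool) × G)

/-- the length: the number of letters -/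
def CWord.length {G : Type} {r : ℕ} (w : CWord G r) : ℕ := w.steps.length

/-- the element of the free group given by a letter -/
def letter {r : ℕ} (s : Fin r × Bool) : FreeGroup (Fin r) :=
  if s.2 then FreeGroup.of s.1 else (FreeGroup.of s.1)⁻¹

/-- the element of the free product `G * F_r` given by a written-out word -/
def CWord.toCoprod {G : Type} [Group G] {r : ℕ} (w : CWord G r) :
    Monoid.Coprod G (FreeGroup (Fin r)) :=
  Monoid.Coprod.inl w.c0 *
    (w.steps.map fun s => Monoid.Coprod.inr (letter s.1) * Monoid.Coprod.inl s.2).prod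

/-- the word map `G^r → G` of an element of `G * F_r`: substitute `x_i ↦ g_i` -/
def wordMap {G : Type} [Group G] {r : ℕ} (w : Monoid.Coprod G (FreeGroup (Fin r)))
    (g : Fin r → G) : G :=
  Monoid.Coprod.lift (MonoidHom.id G) (FreeGroup.lift g) w

/-- `w` is non-singular if its image in `F_r` under the homomorphism killing `G` is not `1` -/
def NonSingular {G : Type} [Group G] {r : ℕ} (w : Monoid.Coprod G (FreeGroup (Fin r))) : Prop :=
  Monoid.Coprod.snd w ≠ 1

open scoped Classical in
/-- the push-forward of the uniform probability measure on a finite set, as a mass function -/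
noncomputable def law {Ω α : Type} [Fintype Ω] (X : Ω → α) (a : α) : ℝ :=
  ((univ.filter fun ω => X ω = a).card : ℝ) / Fintype.card Ω

/-- the uniform probability measure on `S_n` -/
noncomputable def unif (n : ℕ) (_π : Equiv.Perm (Fin n)) : ℝ :=
  1 / Fintype.card (Equiv.Perm (Fin n))

/-- the symmetrization of a probability measure on `S_n` -/
noncomputable def symmetrize {n : ℕ} (μ : Equiv.Perm (Fin n) → ℝ) (π : Equiv.Perm (Fin n)) : ℝ :=
  (∑ σ : Equiv.Perm (Fin n), μ (σ⁻¹ * π * σ)) / Fintype.card (Equiv.Perm (Fin n))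

/-- the normalized Hamming metric on `S_n` -/
noncomputable def hamming {n : ℕ} (σ τ : Equiv.Perm (Fin n)) : ℝ :=
  ((univ.filter fun i => σ i ≠ τ i).card : ℝ) / n

/-- `γ` is a coupling of the probability measures `μ` and `ν` -/
structure IsCoupling {n : ℕ} (μ ν : Equiv.Perm (Fin n) → ℝ)
    (γ : Equiv.Perm (Fin n) → Equiv.Perm (Fin n) → ℝ) : Prop where
  nonneg : ∀ σ τ, 0 ≤ γ σ τ
  left : ∀ σ, ∑ τ, γ σ τ = μ σ
  right : ∀ τ, ∑ σ, γ σ τ = ν τ

/-- the Kantorovich-Rubinstein distance of two probability measures on `S_n` -/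
noncomputable def krDist {n : ℕ} (μ ν : Equiv.Perm (Fin n) → ℝ) : ℝ :=
  sInf {c : ℝ | ∃ γ, IsCoupling μ ν γ ∧ c = ∑ σ, ∑ τ, γ σ τ * hamming σ τ}

/-! ### couplings -/

theorem law_eq {Ω α : Type} [Fintype Ω] [DecidableEq α] (X : Ω → α) (a : α) :
    law X a = (∑ ω, if X ω = a then (1 : ℝ) else 0) / Fintype.card Ω := by
  unfold law
  rw [Finset.sum_boole]
  congr!

theorem hamming_nonneg {n : ℕ} (σ τ : Equiv.Perm (Fin n)) : 0 ≤ hamming σ τ := by
  unfold hamming
  positivity

theorem krDist_nonneg {n : ℕ} (μ ν : Equiv.Perm (Fin n) → ℝ) : 0 ≤ krDist μ ν := by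
  apply Real.sInf_nonneg
  rintro c ⟨γ, hγ, rfl⟩
  exact Finset.sum_nonneg fun σ _ => Finset.sum_nonneg fun τ _ =>
    mul_nonneg (hγ.nonneg σ τ) (hamming_nonneg σ τ)

theorem krDist_law_le {n : ℕ} {Ω : Type} [Fintype Ω] (A B : Ω → Equiv.Perm (Fin n)) :
    krDist (law A) (law B) ≤ (∑ ω, hamming (A ω) (B ω)) / Fintype.card Ω := by
  classical
  apply csInf_le
  · refine ⟨0, ?_⟩
    rintro c ⟨γ, hγ, rfl⟩
    exact Finset.sum_nonneg fun σ _ => Finset.sum_nonneg fun τ _ =>
      mul_nonneg (hγ.nonneg σ τ) (hamming_nonneg σ τ)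
  · refine ⟨fun σ τ => (∑ ω, if A ω = σ then (if B ω = τ then (1 : ℝ) else 0) else 0) /
      Fintype.card Ω, ⟨?_, ?_, ?_⟩, ?_⟩
    · intro σ τ
      apply div_nonneg _ (Nat.cast_nonneg _)
      refine Finset.sum_nonneg fun ω _ => ?_
      split_ifs <;> norm_num
    · intro σ
      rw [law_eq, ← Finset.sum_div, Finset.sum_comm]
      congr 1
      refine Finset.sum_congr rfl fun ω _ => ?_
      by_cases h : A ω = σ
      · simp [h]
      · simp [h]
    · intro τ
      rw [law_eq, ← Finset.sum_div, Finset.sum_comm]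
      congr 1
      refine Finset.sum_congr rfl fun ω _ => ?_
      simp
    · have h1 : ∀ σ τ, (∑ ω, if A ω = σ then (if B ω = τ then (1 : ℝ) else 0) else 0) /
          Fintype.card Ω * hamming σ τ = (∑ ω, if A ω = σ then (if B ω = τ then
            hamming σ τ else 0) else 0) / Fintype.card Ω := by
        intro σ τ
        rw [div_mul_eq_mul_div, Finset.sum_mul]
        congr 1
        refine Finset.sum_congr rfl fun ω _ => ?_
        split_ifs <;> simp
      simp only [h1]
      simp only [← Finset.sum_div]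
      congr 1
      have h2 : ∀ σ, ∑ τ, (∑ ω, if A ω = σ then (if B ω = τ then
            hamming σ τ else 0) else 0) = ∑ ω, if A ω = σ then hamming σ (B ω) else 0 := by
        intro σ
        rw [Finset.sum_comm]
        refine Finset.sum_congr rfl fun ω _ => ?_
        by_cases h : A ω = σ
        · simp [h]
        · simp [h]
      simp only [h2]
      rw [Finset.sum_comm]
      refine Finset.sum_congr rfl fun ω _ => ?_
      simp

open Pool.Agent.Q18.WordC

variable {n r : ℕ}

/-- first marginal -/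
def mapA (V : (Fin r → Pm n) → Pm n) (ω : (Fin r → Pm n) × (Pm n × Pm n)) : Pm n :=
  ω.2.1 * V ω.1 * ω.2.1⁻¹

/-- second marginal -/
noncomputable def mapB (V : (Fin r → Pm n) → Pm n) (ω : (Fin r → Pm n) × (Pm n × Pm n)) : Pm n :=
  (ω.2.1 * (enum (V ω.1) * (enum ω.2.2)⁻¹)) * ω.2.2 *
    (ω.2.1 * (enum (V ω.1) * (enum ω.2.2)⁻¹))⁻¹

theorem law_mapA (V : (Fin r → Pm n) → Pm n) : symmetrize (law V) = law (mapA V) := by
  classical
  funext π
  rw [law_eq, symmetrize]
  have hT : (Fintype.card (Fin r → Pm n) : ℝ) ≠ 0 := by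
    exact_mod_cast Fintype.card_ne_zero
  have hn : (Fintype.card (Pm n) : ℝ) ≠ 0 := by
    exact_mod_cast Fintype.card_ne_zero
  have h1 : (∑ ω : (Fin r → Pm n) × (Pm n × Pm n), if mapA V ω = π then (1 : ℝ) else 0) =
      (Fintype.card (Pm n) : ℝ) * ∑ τ : Pm n, ∑ g : Fin r → Pm n,
        if V g = τ⁻¹ * π * τ then (1 : ℝ) else 0 := by
    rw [Fintype.sum_prod_type, Finset.sum_comm, Fintype.sum_prod_type, Finset.mul_sum]
    refine Finset.sum_congr rfl fun τ _ => ?_
    have h2 : ∀ σ' : Pm n, (∑ g : Fin r → Pm n, if mapA V (g, τ, σ') = π then (1 : ℝ) else 0) =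
        ∑ g : Fin r → Pm n, if V g = τ⁻¹ * π * τ then (1 : ℝ) else 0 := by
      intro σ'
      refine Finset.sum_congr rfl fun g _ => ?_
      congr 1
      apply propext
      simp only [mapA]
      constructor
      · rintro rfl
        group
      · intro h
        rw [h]
        group
    simp only [h2]
    rw [Finset.sum_const, Finset.card_univ, nsmul_eq_mul]
  rw [h1]
  simp only [law_eq]
  rw [← Finset.sum_div]
  simp only [Fintype.card_prod, Nat.cast_mul]
  field_simp

theorem law_mapB (V : (Fin r → Pm n) → Pm n) : unif n = law (mapB V) := by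
  classical
  funext π
  rw [law_eq, unif]
  have hT : (Fintype.card (Fin r → Pm n) : ℝ) ≠ 0 := by
    exact_mod_cast Fintype.card_ne_zero
  have hn : (Fintype.card (Pm n) : ℝ) ≠ 0 := by
    exact_mod_cast Fintype.card_ne_zero
  have h1 : (∑ ω : (Fin r → Pm n) × (Pm n × Pm n), if mapB V ω = π then (1 : ℝ) else 0) =
      (Fintype.card (Fin r → Pm n) : ℝ) * (Fintype.card (Pm n) : ℝ) := by
    rw [Fintype.sum_prod_type]
    have h2 : ∀ g : Fin r → Pm n,
        (∑ y : Pm n × Pm n, if mapB V (g, y) = π then (1 : ℝ) else 0) =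
          (Fintype.card (Pm n) : ℝ) := by
      intro g
      rw [Fintype.sum_prod_type, Finset.sum_comm]
      have h3 : ∀ σ' : Pm n, (∑ τ : Pm n, if mapB V (g, τ, σ') = π then (1 : ℝ) else 0) =
          ∑ τ : Pm n, if τ * σ' * τ⁻¹ = π then (1 : ℝ) else 0 := by
        intro σ'
        rw [← Equiv.sum_comp (Equiv.mulRight (enum (V g) * (enum σ')⁻¹))
          (fun τ => if τ * σ' * τ⁻¹ = π then (1 : ℝ) else 0)]
        rfl
      simp only [h3]
      rw [Finset.sum_comm]
      have h4 : ∀ τ : Pm n, (∑ σ' : Pm n, if τ * σ' * τ⁻¹ = π then (1 : ℝ) else 0) = 1 := by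
        intro τ
        have h5 : ∀ σ' : Pm n, (τ * σ' * τ⁻¹ = π) ↔ (σ' = τ⁻¹ * π * τ) := by
          intro σ'
          constructor
          · rintro rfl
            group
          · intro h
            rw [h]
            group
        simp only [h5]
        simp
      simp only [h4]
      rw [Finset.sum_const, Finset.card_univ, nsmul_eq_mul, mul_one]
    simp only [h2]
    rw [Finset.sum_const, Finset.card_univ, nsmul_eq_mul]
  rw [h1]
  simp only [Fintype.card_prod, Nat.cast_mul]
  field_simp

theorem hamming_le (V : (Fin r → Pm n) → Pm n) (ω : (Fin r → Pm n) × (Pm n × Pm n)) :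
    hamming (mapA V ω) (mapB V ω) ≤ ((bad (V ω.1) : ℝ) + (bad ω.2.2 : ℝ)) / n := by
  classical
  unfold hamming
  apply div_le_div_of_nonneg_right _ (Nat.cast_nonneg _)
  rw [← Nat.cast_add]
  apply Nat.cast_le.2
  unfold bad
  refine le_trans ?_ (Finset.card_union_le _ _)
  refine Finset.card_le_card_of_injOn (fun x => (enum (V ω.1))⁻¹ (ω.2.1⁻¹ x)) ?_ ?_
  · intro x hx
    simp only [Finset.coe_filter, Finset.mem_univ, true_and, Set.mem_ofPred_eq] at hx
    simp only [Finset.coe_union, Finset.coe_filter, Finset.mem_univ, true_and]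
    by_contra hcon
    rw [Set.mem_union, not_or] at hcon
    simp only [Set.mem_ofPred_eq, ne_eq, not_not] at hcon
    obtain ⟨h1, h2⟩ := hcon
    apply hx
    set j := (enum (V ω.1))⁻¹ (ω.2.1⁻¹ x) with hj
    have h3 : ω.2.1⁻¹ x = enum (V ω.1) j := by rw [hj]; simp
    simp only [mapA, mapB, Equiv.Perm.mul_apply, mul_inv_rev, inv_inv]
    rw [h3, h1]
    congr 1
    rw [← Equiv.Perm.mul_apply (enum (V ω.1))⁻¹, inv_mul_cancel, Equiv.Perm.one_apply, h2]
    simp
  · intro x _ y _ h
    simp only at h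
    exact (ω.2.1⁻¹).injective ((enum (V ω.1))⁻¹.injective h)

theorem kr_le (V : (Fin r → Pm n) → Pm n) :
    krDist (symmetrize (law V)) (unif n) ≤
      (∑ g : Fin r → Pm n, (bad (V g) : ℝ)) / Fintype.card (Fin r → Pm n) / n +
      (∑ σ : Pm n, (bad σ : ℝ)) / Fintype.card (Pm n) / n := by
  have hT : (Fintype.card (Fin r → Pm n) : ℝ) ≠ 0 := by
    exact_mod_cast Fintype.card_ne_zero
  have hn : (Fintype.card (Pm n) : ℝ) ≠ 0 := by
    exact_mod_cast Fintype.card_ne_zero
  rw [law_mapA, law_mapB V]
  refine (krDist_law_le _ _).trans ?_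
  calc (∑ ω, hamming (mapA V ω) (mapB V ω)) / Fintype.card ((Fin r → Pm n) × (Pm n × Pm n))
      ≤ (∑ ω : (Fin r → Pm n) × (Pm n × Pm n), ((bad (V ω.1) : ℝ) + (bad ω.2.2 : ℝ)) / n) /
        Fintype.card ((Fin r → Pm n) × (Pm n × Pm n)) := by
        apply div_le_div_of_nonneg_right _ (Nat.cast_nonneg _)
        exact Finset.sum_le_sum fun ω _ => hamming_le V ω
    _ = (((Fintype.card (Pm n) : ℝ) * (Fintype.card (Pm n) : ℝ)) *
          (∑ g : Fin r → Pm n, (bad (V g) : ℝ)) +
          ((Fintype.card (Fin r → Pm n) : ℝ) * (Fintype.card (Pm n) : ℝ)) *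
          (∑ σ : Pm n, (bad σ : ℝ))) / n /
          Fintype.card ((Fin r → Pm n) × (Pm n × Pm n)) := by
        congr 1
        rw [← Finset.sum_div]
        congr 1
        rw [Finset.sum_add_distrib]
        congr 1
        · rw [Fintype.sum_prod_type]
          simp only [Finset.sum_const, Finset.card_univ, nsmul_eq_mul, Fintype.card_prod,
            Nat.cast_mul]
          rw [← Finset.mul_sum]
        · rw [Fintype.sum_prod_type]
          simp only [Fintype.sum_prod_type]
          simp only [Finset.sum_const, Finset.card_univ, nsmul_eq_mul]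
          ring
    _ = _ := by
        simp only [Fintype.card_prod, Nat.cast_mul]
        by_cases h0 : (n : ℝ) = 0
        · simp [h0]
        · field_simp

theorem avg_le (V : (Fin r → Pm n) → Pm n) (c0 : Pm n) (R : List (Step n r))
    (hV : ∀ g x, V g x = c0 (run g R x)) (hR : content R ≠ 1) (K l : ℕ) (hl : R.length ≤ l)
    (hK : 0 < K) (hn : K * l < n) :
    (∑ g : Fin r → Pm n, (bad (V g) : ℝ)) / Fintype.card (Fin r → Pm n) / n ≤
      (K * Cc (K * l) : ℝ) / ((n : ℝ) - (K * l : ℕ)) + 1 / K := by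
  have h := sum_bad_le V c0 R hV hR K l hl
  have h1 : ((n - K * l : ℕ) : ℝ) = (n : ℝ) - (K * l : ℕ) := by
    rw [Nat.cast_sub hn.le]
  have h2 : (((K * ∑ g : Fin r → Pm n, bad (V g)) * (n - K * l) : ℕ) : ℝ) ≤
      ((K * (K * (n * (Cc (K * l) * Fintype.card (Fin r → Pm n)))) +
        Fintype.card (Fin r → Pm n) * n * (n - K * l) : ℕ) : ℝ) := Nat.cast_le.2 h
  simp only [Nat.cast_mul, Nat.cast_add, Nat.cast_sum] at h2
  rw [h1] at h2
  have hT : (0 : ℝ) < (Fintype.card (Fin r → Pm n) : ℝ) := by
    exact_mod_cast Fintype.card_pos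
  have hn0 : (0 : ℝ) < n := by
    have : 0 < n := by omega
    exact_mod_cast this
  have hK0 : (0 : ℝ) < K := by exact_mod_cast hK
  have hM : (0 : ℝ) < (n : ℝ) - (K * l : ℕ) := by
    rw [← h1]
    have : 0 < n - K * l := by omega
    exact_mod_cast this
  set M : ℝ := (n : ℝ) - (K * l : ℕ) with hMdef
  set S : ℝ := ∑ g : Fin r → Pm n, (bad (V g) : ℝ) with hS
  set T : ℝ := (Fintype.card (Fin r → Pm n) : ℝ) with hTdef
  set C : ℝ := (Cc (K * l) : ℝ) with hC
  rw [div_div, div_add_div _ _ hM.ne' hK0.ne', div_le_div_iff₀ (by positivity) (by positivity)]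
  nlinarith [h2]

theorem run_steps {G : List ((Fin r × Bool) × Pm n)} (g : Fin r → Pm n) (x : Fin n) :
    (G.map fun s => FreeGroup.lift g (letter s.1) * s.2).prod x =
      run g (G.reverse.map fun s => (s.2, s.1.1, s.1.2)) x := by
  induction G with
  | nil => simp [run]
  | cons s G ih =>
    obtain ⟨⟨i, e⟩, c⟩ := s
    simp only [List.map_cons, List.prod_cons, List.reverse_cons, List.map_append, List.map_nil]
    rw [run_append, ← ih, Equiv.Perm.mul_apply, Equiv.Perm.mul_apply]
    cases e <;> simp [run, ap, pw, letter]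

theorem content_steps {G : List ((Fin r × Bool) × Pm n)} :
    (G.map fun s => letter s.1).prod =
      content (G.reverse.map fun s => ((s.2, s.1.1, s.1.2) : Step n r)) := by
  induction G with
  | nil => simp [content]
  | cons s G ih =>
    obtain ⟨⟨i, e⟩, c⟩ := s
    simp only [List.map_cons, List.prod_cons, List.reverse_cons, List.map_append, List.map_nil]
    rw [content_append, ← ih]
    simp [content, letter, lett]

theorem word_run (w : Monoid.Coprod (Pm n) (FreeGroup (Fin r))) (W : CWord (Pm n) r)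
    (hW : W.toCoprod = w) (g : Fin r → Pm n) (x : Fin n) :
    wordMap w g x = W.c0 (run g (W.steps.reverse.map fun s => (s.2, s.1.1, s.1.2)) x) := by
  rw [← run_steps, ← hW, wordMap, CWord.toCoprod, map_mul, map_list_prod, List.map_map,
    Equiv.Perm.mul_apply]
  simp only [Monoid.Coprod.lift_apply_inl, MonoidHom.id_apply]
  congr 3

theorem word_content (w : Monoid.Coprod (Pm n) (FreeGroup (Fin r))) (W : CWord (Pm n) r)
    (hW : W.toCoprod = w) :
    Monoid.Coprod.snd w = content (W.steps.reverse.map fun s => ((s.2, s.1.1, s.1.2) : Step n r)) := by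
  rw [← content_steps, ← hW, CWord.toCoprod, map_mul, map_list_prod, List.map_map]
  simp only [Monoid.Coprod.snd_apply_inl, one_mul]
  congr 1
  refine List.map_congr_left fun s _ => ?_
  simp

theorem sum_bad_unif (K l : ℕ) (hl : 1 ≤ l) (hK : 0 < K) (hn : K * l < n) :
    (∑ σ : Pm n, (bad σ : ℝ)) / Fintype.card (Pm n) / n ≤
      (K * Cc (K * l) : ℝ) / ((n : ℝ) - (K * l : ℕ)) + 1 / K := by
  have h := avg_le (r := 1) (n := n) (fun g => g 0) 1 [(1, 0, true)]
    (by intro g x; simp [run, ap, pw]) (by simp [content, lett]) K l (by simpa using hl) hK hn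
  have h1 : (∑ g : Fin 1 → Pm n, (bad (g 0) : ℝ)) = ∑ σ : Pm n, (bad σ : ℝ) :=
    Equiv.sum_comp (Equiv.funUnique (Fin 1) (Pm n)) (fun σ => (bad σ : ℝ))
  have h2 : Fintype.card (Fin 1 → Pm n) = Fintype.card (Pm n) :=
    Fintype.card_congr (Equiv.funUnique (Fin 1) (Pm n))
  rw [h1, h2] at h
  exact h

/-- **Theorem.** Let `w_n ∈ S_n * F_r` be non-singular words, each of which can be written with at
most `L` letters.  Then the Kantorovich-Rubinstein distance of the symmetrized word measure of
`w_n` from the uniform measure on `S_n` tends to `0`. -/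
theorem result (r L : ℕ) (w : ∀ n : ℕ, Monoid.Coprod (Equiv.Perm (Fin n)) (FreeGroup (Fin r)))
    (hlen : ∀ n, ∃ W : CWord (Equiv.Perm (Fin n)) r, W.toCoprod = w n ∧ W.length ≤ L)
    (hns : ∀ n, NonSingular (w n)) :
    Tendsto (fun n => krDist (symmetrize (law (wordMap (w n)))) (unif n)) atTop (𝓝 0) := by
  rw [Metric.tendsto_atTop]
  intro ε hε
  obtain ⟨K, hK⟩ := exists_nat_gt (4 / ε)
  have hK0 : 0 < K := by
    have : (0 : ℝ) < K := lt_trans (by positivity) hK
    exact_mod_cast this
  have hKr : (0 : ℝ) < K := by exact_mod_cast hK0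
  set l := L + 1 with hl
  obtain ⟨m, hm⟩ := exists_nat_gt ((K * Cc (K * l) : ℝ) * (4 / ε))
  refine ⟨K * l + m + 1, fun n hn => ?_⟩
  have hn1 : K * l < n := by omega
  obtain ⟨W, hW, hWl⟩ := hlen n
  have h1 := kr_le (wordMap (w n))
  have h2 := avg_le (wordMap (w n)) W.c0 (W.steps.reverse.map fun s => (s.2, s.1.1, s.1.2))
    (word_run (w n) W hW) (by
      rw [← word_content (w n) W hW]
      exact hns n) K l (by
      simp only [List.length_map, List.length_reverse]
      exact hWl.trans (Nat.le_succ L)) hK0 hn1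
  have h3 := sum_bad_unif (n := n) K l (by omega) hK0 hn1
  have hM : (m : ℝ) < (n : ℝ) - (K * l : ℕ) := by
    have : K * l + m < n := by omega
    have h4 : ((K * l + m : ℕ) : ℝ) < n := by exact_mod_cast this
    rw [Nat.cast_add] at h4
    linarith
  have hm0 : (0 : ℝ) < (n : ℝ) - (K * l : ℕ) := lt_of_le_of_lt (Nat.cast_nonneg m) hM
  have h5 : (K * Cc (K * l) : ℝ) / ((n : ℝ) - (K * l : ℕ)) < ε / 4 := by
    rw [div_lt_iff₀ hm0]
    have h6 : (K * Cc (K * l) : ℝ) * (4 / ε) < (n : ℝ) - (K * l : ℕ) := hm.trans hM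
    have h7 : (K * Cc (K * l) : ℝ) = (K * Cc (K * l) : ℝ) * (4 / ε) * (ε / 4) := by
      field_simp
    rw [h7, mul_comm (ε / 4)]
    exact mul_lt_mul_of_pos_right h6 (by positivity)
  have h6 : 1 / (K : ℝ) < ε / 4 := by
    rw [div_lt_iff₀ hKr]
    have h7 : (1 : ℝ) = (4 / ε) * (ε / 4) := by field_simp
    rw [h7, mul_comm (ε / 4)]
    exact mul_lt_mul_of_pos_right hK (by positivity)
  rw [Real.dist_eq, sub_zero, abs_of_nonneg (krDist_nonneg _ _)]
  linarith

end Pool.Agent.Results.MP_492aa6_al.Equidistribution
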